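import Pool.Agent.EDX.Stmts2

set_option autoImplicit false

namespace Pool.Agent.EDX.H90

open Polynomial Finset Pool.Agent.EDG Pool.Agent.EDX

theorem vt_F (θ : FF) : vt θ F = C (θ ^ 2) := by
  have h3 : (2 : FF[X]) = 0 := CharTwo.two_eq_zero
  rw [F, map_add, map_pow, map_mul, vt_X, vt_C]
  have h4 : ((2 * X : ℤ[X]).map (Int.castRingHom FF)) = 0 := by
    rw [Polynomial.map_mul, Polynomial.map_ofNat, h3, zero_mul]
  rw [h4, zero_mul, add_zero, map_pow]

theorem vt_comp (θ : FF) (ψ : ℤ[X][X]) : vt θ (ψ.comp F) = vt (θ ^ 2) ψ := by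
  have h : (vt θ).comp (compRingHom F) = vt (θ ^ 2) := by
    apply Polynomial.ringHom_ext
    · intro p
      simp [vt_C]
    · simp [vt_F, vt_X]
  have h2 := congrArg (fun φ => φ ψ) h
  simpa using h2

theorem vt_frob (θ : FF) (ψ : ℤ[X][X]) :
    vt (θ ^ 2) ψ = (vt θ ψ).map (frobenius FF 2) := by
  have h : vt (θ ^ 2) = (mapRingHom (frobenius FF 2)).comp (vt θ) := by
    apply Polynomial.ringHom_ext
    · intro p
      rw [vt_C, RingHom.comp_apply, vt_C, coe_mapRingHom, Polynomial.map_map]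
      congr 1
      exact RingHom.ext_int _ _
    · rw [vt_X, RingHom.comp_apply, vt_X, coe_mapRingHom, map_C, frobenius_def]
  rw [h]
  rfl

theorem fro : FroStmt := by
  intro θ ψ
  rw [vt_comp, vt_frob]
  rw [Polynomial.map_eq_zero_iff (frobenius FF 2).injective]

end Pool.Agent.EDX.H90
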